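import Pool.Agent.X41.Inf3.Final

set_option autoImplicit false

/-!
# A three-dimensional algebra without a finite basis of identities

Over every infinite field `K` of characteristic two, the three-dimensional commutative algebra with
basis `d, e, z` and `d e = e d = e`, `e e = z`, all other products of basis elements zero, is
infinitely based.  This answers Q1 of `MP_c03fb1_al` positively.

The identities `g_M = (((x_0 x_1) x_4) ⋯ x_{M+3}) (x_2 x_3) + (((x_0 x_2) x_4) ⋯ x_{M+3}) (x_1 x_3)
+ (((x_0 x_3) x_4) ⋯ x_{M+3}) (x_1 x_2)` hold in the algebra, and for every `N` there is a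
`K`-algebra satisfying all its identities of degree less than `N` but not `g_{N-4}`.

The definitions (`IsIdentity`, `Follows`, `FinitelyBased`, `A3`) are in
`Pool/Agent/X41/Inf3/Defs.lean`.
-/

namespace Pool.Agent.Results.MP_c03fb1_al.CharTwoThreeDim

open Pool.Agent.X41.Inf3

universe u

/-- **Answer to Q1: yes.**  There are a field `K` and a three-dimensional infinitely based algebra
over `K`; indeed, for every infinite field of characteristic two (in any universe) the
three-dimensional commutative algebra `A3 K` is infinitely based. -/
theorem result :
    (∃ (K : Type) (_ : Field K) (R : Type) (_ : NonUnitalNonAssocRing R) (_ : Module K R)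
      (_ : IsScalarTower K R R) (_ : SMulCommClass K R R),
      Module.finrank K R = 3 ∧ ¬ FinitelyBased K R) ∧
    ∀ (K : Type u) [Field K] [Infinite K] [CharP K 2],
      Module.finrank K (A3 K) = 3 ∧ (∀ x y : A3 K, x * y = y * x) ∧
        ¬ FinitelyBased K (A3 K) := by
  refine ⟨⟨AlgebraicClosure (ZMod 2), inferInstance, A3 (AlgebraicClosure (ZMod 2)), inferInstance,
    inferInstance, inferInstance, inferInstance, A3.finrank, ?_⟩, ?_⟩
  · have : Infinite (AlgebraicClosure (ZMod 2)) := inferInstance
    have : CharP (AlgebraicClosure (ZMod 2)) 2 := inferInstance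
    exact not_finitelyBased
  · intro K _ _ _
    exact ⟨A3.finrank, A3.comm, not_finitelyBased⟩

end Pool.Agent.Results.MP_c03fb1_al.CharTwoThreeDim
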